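import Pool.Agent.Helper14.AY.GoalsA

/-! # Project AY, packet CVB -/

open Complex Metric Set Filter Topology MeasureTheory
open scoped ContDiff

namespace Pool.Agent.Helper85.AY

open Pool.Agent.Helper95.Lin Pool.Agent.Helper14.AY

lemma int_cv {n : ℕ} {k f : Cn n → ℝ} (hk : TF k) (hf : Continuous f) (r : ℝ) (x : Cn n) :
    Integrable fun y => f (x - r • y) * k y := by
  have hkc := hk.1.continuous
  refine Continuous.integrable_of_hasCompactSupport (by fun_prop) ?_
  exact hk.2.mul_left

lemma cont_cv {n : ℕ} {k f : Cn n → ℝ} (hk : TF k) (hf : Continuous f) (x : Cn n) :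
    Continuous fun r => Cv k f r x := by
  have hkc := hk.1.continuous
  have h1 : Continuous fun r : ℝ => ∫ y in tsupport k, f (x - r • y) * k y := by
    refine continuous_parametric_integral_of_continuous (f := fun (r : ℝ) (y : Cn n) =>
      f (x - r • y) * k y) ?_ hk.2
    simp only [Function.uncurry_def]
    fun_prop
  have h2 : (fun r => Cv k f r x) = fun r : ℝ => ∫ y in tsupport k, f (x - r • y) * k y := by
    funext r
    unfold Cv
    symm
    refine setIntegral_eq_integral_of_forall_compl_eq_zero fun y hy => ?_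
    rw [image_eq_zero_of_notMem_tsupport hy, mul_zero]
  rw [h2]
  exact h1

theorem cvb : S_CVB := by
  intro n k f hk hf
  have hkc := hk.1.continuous
  have hki : Integrable fun y => |k y| :=
    (hkc.integrable_of_hasCompactSupport hk.2).abs
  have h3 : ∀ B : ℝ, (∀ x, |f x| ≤ B) → ∀ (r : ℝ) (x : Cn n),
      |Cv k f r x| ≤ B * ∫ y, |k y| := by
    intro B hB r x
    unfold Cv
    refine (abs_integral_le_integral_abs).trans ?_
    rw [← integral_const_mul]
    refine integral_mono (int_cv hk hf r x).abs (hki.const_mul B) fun y => ?_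
    simp only [abs_mul]
    exact mul_le_mul_of_nonneg_right (hB _) (abs_nonneg _)
  refine ⟨int_cv hk hf, ?_, h3, ?_, ?_⟩
  · intro k' hk' c c' r x
    unfold Cv
    rw [← integral_const_mul, ← integral_const_mul,
      ← integral_add ((int_cv hk hf r x).const_mul c) ((int_cv hk' hf r x).const_mul c')]
    congr 1
    funext y
    ring
  · intro x
    have h := ((cont_cv hk hf x).tendsto 0).mono_left
      (nhdsWithin_le_nhds (s := Ioi (0 : ℝ)))
    have h0 : Cv k f 0 x = f x * ∫ y, k y := by
      unfold Cv
      simp only [zero_smul, sub_zero]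
      rw [integral_const_mul]
    rw [h0] at h
    exact h
  · intro x hfc
    obtain ⟨B, hB⟩ := hfc.exists_bound_of_continuous hf
    have h1 : Tendsto (fun r : ℝ => (r ^ 2)⁻¹ * (B * ∫ y, |k y|)) atTop (𝓝 0) := by
      have : Tendsto (fun r : ℝ => (r ^ 2)⁻¹) atTop (𝓝 0) :=
        (tendsto_pow_atTop (by norm_num)).inv_tendsto_atTop
      simpa using this.mul_const (B * ∫ y, |k y|)
    refine squeeze_zero_norm (fun r => ?_) h1
    rw [norm_mul, Real.norm_eq_abs, Real.norm_eq_abs, abs_of_nonneg (by positivity : 0 ≤ (r ^ 2)⁻¹)]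
    exact mul_le_mul_of_nonneg_left (h3 B hB r x) (by positivity)

end Pool.Agent.Helper85.AY
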