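import Pool.Agent.Helper14.AY.GoalsA

/-! # Project AY, packet GSA -/

open Complex Metric Set Filter Topology MeasureTheory
open scoped ContDiff

namespace Pool.Agent.Helper85.AY

open Pool.Agent.Helper95.Lin Pool.Agent.Helper16.Abund Pool.Agent.Helper92.Orb Pool.Agent.Helper10.SP
  Pool.Agent.Helper95.RK Pool.Agent.Helper57.HS Pool.Agent.Helper14.AY

theorem gsa (h1 : S_GS1) (h2 : S_SQA) : S_GSA := by
  intro n a lam ha ha1 hlam
  obtain ⟨K, hK, HK⟩ := h1 n a ha ha1
  obtain ⟨C, hC, HC⟩ := h2 n lam hlam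
  have hCa : 0 < C ^ a := Real.rpow_pos_of_pos hC a
  refine ⟨C ^ 2 * (K * C ^ a) * C ^ a, by positivity, ?_⟩
  intro A hA1 hA2 w hw hwc M hM
  rcases lt_or_ge M 0 with hM0 | hM0
  · intro x hx y hy
    have hxy : x = y := by
      by_contra hne
      have h3 := hM x hx y hy
      have h4 : 0 < ‖x - y‖ ^ a := Real.rpow_pos_of_pos (norm_pos_iff.mpr (sub_ne_zero.mpr hne)) a
      have h5 := norm_nonneg ((fun x => Matrix.trace (A * LM w x)) x -
        (fun x => Matrix.trace (A * LM w x)) y)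
      nlinarith [mul_pos (neg_pos.mpr hM0) h4]
    subst hxy
    have e1 : ‖x - x‖ ^ a = 0 := by rw [sub_self, norm_zero, Real.zero_rpow ha.ne']
    have e2 : D2 w x - D2 w x = 0 := sub_self (D2 w x)
    rw [e1, e2, mul_zero]
    exact (ContinuousLinearMap.opNorm_zero (σ₁₂ := RingHom.id ℝ)).le
  obtain ⟨L, hL1, hL2, HL⟩ := HC A hA1 hA2
  have hLn : ∀ z, ‖L z‖ ≤ C * ‖z‖ := fun z =>
    ((L : Cn n →L[ℝ] Cn n).le_opNorm z).trans (mul_le_mul_of_nonneg_right hL1 (norm_nonneg _))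
  have hLs : ∀ z, ‖L.symm z‖ ≤ C * ‖z‖ := fun z =>
    ((L.symm : Cn n →L[ℝ] Cn n).le_opNorm z).trans
      (mul_le_mul_of_nonneg_right hL2 (norm_nonneg _))
  have hw' : ContDiff ℝ 2 (fun z => w (L z)) := hw.comp L.contDiff
  have hwc' : HasCompactSupport (fun z => w (L z)) :=
    hwc.comp_isClosedEmbedding L.toHomeomorph.isClosedEmbedding
  have hlap : HB a univ (M * C ^ a) (Lap fun z => w (L z)) := by
    intro y _ y' _
    have e1 := (HL w hw y).2
    have e2 := (HL w hw y').2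
    have h3 := hM (L y) (mem_univ _) (L y') (mem_univ _)
    simp only [e1, e2] at h3
    rw [← Complex.ofReal_sub, Complex.norm_real] at h3
    refine h3.trans ?_
    rw [← map_sub, mul_assoc]
    refine mul_le_mul_of_nonneg_left ?_ hM0
    rw [← Real.mul_rpow hC.le (norm_nonneg _)]
    exact Real.rpow_le_rpow (norm_nonneg _) (hLn _) ha.le
  have hD := HK _ hw' hwc' _ hlap
  intro x _ x' _
  have h3 := hD (L.symm x) (mem_univ _) (L.symm x') (mem_univ _)
  have hkey : ∀ z u v, D2 w z u v =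
      D2 (fun z => w (L z)) (L.symm z) (L.symm u) (L.symm v) := by
    intro z u v
    rw [(HL w hw (L.symm z)).1 (L.symm u) (L.symm v)]
    simp
  set δ := ‖D2 (fun z => w (L z)) (L.symm x) - D2 (fun z => w (L z)) (L.symm x')‖ with hδ
  have hδ0 : 0 ≤ δ := by
    rw [hδ]
    exact ContinuousLinearMap.opNorm_nonneg _
  have h4 : ‖D2 w x - D2 w x'‖ ≤ C ^ 2 * δ := by
    refine ContinuousLinearMap.opNorm_le_bound₂ _ (by positivity) fun u v => ?_
    have h5 : (D2 w x - D2 w x') u v =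
        (D2 (fun z => w (L z)) (L.symm x) - D2 (fun z => w (L z)) (L.symm x'))
          (L.symm u) (L.symm v) := by
      simp only [sub_apply, hkey]
    rw [h5]
    refine (ContinuousLinearMap.le_opNorm₂ _ _ _).trans ?_
    rw [← hδ]
    have h6 := hLs u
    have h7 := hLs v
    calc δ * ‖L.symm u‖ * ‖L.symm v‖ ≤ δ * (C * ‖u‖) * (C * ‖v‖) := by
          gcongr
      _ = C ^ 2 * δ * ‖u‖ * ‖v‖ := by ring
  have h5 : ‖L.symm x - L.symm x'‖ ^ a ≤ C ^ a * ‖x - x'‖ ^ a := by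
    rw [← map_sub, ← Real.mul_rpow hC.le (norm_nonneg _)]
    exact Real.rpow_le_rpow (norm_nonneg _) (hLs _) ha.le
  calc ‖D2 w x - D2 w x'‖ ≤ C ^ 2 * δ := h4
    _ ≤ C ^ 2 * (K * (M * C ^ a) * (C ^ a * ‖x - x'‖ ^ a)) := by
        refine mul_le_mul_of_nonneg_left (h3.trans ?_) (by positivity)
        exact mul_le_mul_of_nonneg_left h5 (by positivity)
    _ = C ^ 2 * (K * C ^ a) * C ^ a * M * ‖x - x'‖ ^ a := by ring

end Pool.Agent.Helper85.AY
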